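import Pool.Agent.Y380.MG.Fin

/-!
# The edge-deletion sequence for matching complexes of graphs (MP_728c4a_co)

For a finite graph `G` let `gm G univ` be its matching complex. Let `a b` be an edge and `v` a
second neighbour of `a`. Suppose that there are a set `S` of neighbours of `v` and a set `T` of
neighbours of `a` with `b ∈ T` such that an edge of `G` which avoids `a` and `v` has one end in `S`
if and only if it has the other end in `T`, and that all neighbours of `v` other than `a` and `b`
are neighbours of `b`. Then for every `d` the sequence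

`0 → H̃_d(M(G) \ e) → H̃_d(M(G)) → H̃_{d-1}(M(G - a - b)) → 0`,  `e = {a, b}`,

is split exact. This covers all complete graphs on at least three vertices (the question), all
complete bipartite graphs with at least three vertices (chessboard complexes) and all graphs with
three vertices which are adjacent to all other vertices. The chain homotopy is

`z ↦ ∑_{x ∈ S \ a} {x,v} ∧ P_x z' - ∑_{x ∈ T \ {b,v}} {x,a} ∧ (x v) z' - c {a,v} ∧ z'`, `z' = (v b) z`,

where `c = |S \ a| - |T \ v|`.
-/

set_option autoImplicit false

namespace Pool.Agent.Results.MP_728c4a_co.GraphMatchings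

open Pool.Agent.H742R3.Mat Pool.Agent.Y380.MG

section
variable {α : Type} [DecidableEq α]

/-- the matching complex of the complete graph -/
theorem gm_top (W : Finset α) : gm (⊤ : SimpleGraph α) W = matchings W := by
  have h : ∀ e : Finset α, IsE (⊤ : SimpleGraph α) e ↔ e.card = 2 := by
    intro e
    constructor
    · rintro ⟨p, q, hpq, rfl⟩
      exact Finset.card_pair hpq
    · intro he
      obtain ⟨p, q, hpq, rfl⟩ := Finset.card_eq_two.1 he
      exact ⟨p, q, hpq, rfl⟩
  ext σ
  constructor
  · rintro ⟨h1, h2⟩
    exact ⟨fun e he => ⟨(h e).1 (h1 e he).1, (h1 e he).2⟩, h2⟩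
  · rintro ⟨h1, h2⟩
    exact ⟨fun e he => ⟨(h e).2 (h1 e he).1, (h1 e he).2⟩, h2⟩

variable [Fintype α]

/-- three vertices which are adjacent to all other vertices -/
theorem good_three {G : SimpleGraph α} {a b v : α} (hab : a ≠ b) (hav : a ≠ v) (hbv : b ≠ v)
    (ha : ∀ x, x ≠ a → G.Adj a x) (hb : ∀ x, x ≠ b → G.Adj b x) (hv : ∀ x, x ≠ v → G.Adj v x) :
    Good G a b v (Finset.univ \ {a, v}) (Finset.univ \ {a, v}) where
  ab := ha b hab.symm
  av := ha v hav.symm
  bv := hbv
  nb := fun x _ _ hxb => hb x hxb
  hS := by
    intro x hx
    simp only [Finset.mem_sdiff, Finset.mem_univ, Finset.mem_insert, Finset.mem_singleton, true_and,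
      not_or] at hx
    exact hv x hx.2
  hT := by
    intro x hx
    simp only [Finset.mem_sdiff, Finset.mem_univ, Finset.mem_insert, Finset.mem_singleton, true_and,
      not_or] at hx
    exact ha x hx.1
  bT := by simp [hab.symm, hbv]
  st := by
    intro p q _ hpa hpv hqa hqv
    simp [hpa, hpv, hqa, hqv]

end

/-- complete bipartite graphs, second neighbour on the right -/
theorem good_right {m n : ℕ} (i : Fin m) {j j' : Fin n} (h : j ≠ j') :
    Good (completeBipartiteGraph (Fin m) (Fin n)) (Sum.inl i) (Sum.inr j) (Sum.inr j')
      (Finset.univ.filter (fun x => x.isLeft = true))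
      (Finset.univ.filter (fun x => x.isRight = true)) where
  ab := by simp [completeBipartiteGraph]
  av := by simp [completeBipartiteGraph]
  bv := fun e => h (Sum.inr_injective e)
  nb := by
    rintro (x | x) hx _ _
    · simp [completeBipartiteGraph]
    · simp [completeBipartiteGraph] at hx
  hS := by
    rintro (x | x) hx
    · simp [completeBipartiteGraph]
    · simp at hx
  hT := by
    rintro (x | x) hx
    · simp at hx
    · simp [completeBipartiteGraph]
  bT := by simp
  st := by
    rintro (p | p) (q | q) hpq _ _ _ _
    · simp [completeBipartiteGraph] at hpq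
    · simp
    · simp
    · simp [completeBipartiteGraph] at hpq

/-- complete bipartite graphs, second neighbour on the left -/
theorem good_left {m n : ℕ} (j : Fin n) {i i' : Fin m} (h : i ≠ i') :
    Good (completeBipartiteGraph (Fin m) (Fin n)) (Sum.inr j) (Sum.inl i) (Sum.inl i')
      (Finset.univ.filter (fun x => x.isRight = true))
      (Finset.univ.filter (fun x => x.isLeft = true)) where
  ab := by simp [completeBipartiteGraph]
  av := by simp [completeBipartiteGraph]
  bv := fun e => h (Sum.inl_injective e)
  nb := by
    rintro (x | x) hx _ _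
    · simp [completeBipartiteGraph] at hx
    · simp [completeBipartiteGraph]
  hS := by
    rintro (x | x) hx
    · simp at hx
    · simp [completeBipartiteGraph]
  hT := by
    rintro (x | x) hx
    · simp [completeBipartiteGraph]
    · simp at hx
  bT := by simp
  st := by
    rintro (p | p) (q | q) hpq _ _ _ _
    · simp [completeBipartiteGraph] at hpq
    · simp
    · simp
    · simp [completeBipartiteGraph] at hpq

/-- **The edge-deletion sequence for matching complexes of graphs.**
(1) For every finite graph `G`, every edge `e = {a, b}` and every second neighbour `v` of `a` with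
sets `S`, `T` as in `Good`, the link of `e` in the matching complex of `G` is the matching complex
of `G - a - b`, and the sequence `0 → H̃_d(M(G) \ e) → H̃_d(M(G)) → H̃_{d-1}(M(G - a - b)) → 0`
(inclusion; passage to the relative homology identified with that of the link) is split exact for
every integer `d`.
(2) Complete graphs: for every `n ≥ 3` and every edge of `K_n` (question Q1).
(3) Chessboard complexes: for every complete bipartite graph with at least three vertices and each
of its edges.
(4) Every graph with three vertices `a`, `b`, `v` which are adjacent to all other vertices, and the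
edge `{a, b}`.
The chain groups use the orientation given by an arbitrary linear order of the vertices of the
complex. -/
theorem result :
    (∀ (α : Type) [Fintype α] [DecidableEq α] [LinearOrder (Finset α)] (G : SimpleGraph α)
      (a b v : α) (S T : Finset α), Good G a b v S T → ∀ d : ℤ,
      link (gm G Finset.univ) {a, b} = gm G (Finset.univ \ {a, b}) ∧
        DeletionSequenceSplit (gm G Finset.univ) {a, b} d) ∧
    (∀ (n : ℕ), 3 ≤ n → ∀ (a b : Fin n), a ≠ b → ∀ [LinearOrder (Finset (Fin n))] (d : ℤ),
      link (Mn n) {a, b} = matchings (Finset.univ \ {a, b}) ∧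
        DeletionSequenceSplit (Mn n) {a, b} d) ∧
    (∀ (m n : ℕ), 3 ≤ m + n → ∀ (i : Fin m) (j : Fin n)
      [LinearOrder (Finset (Fin m ⊕ Fin n))] (d : ℤ),
      link (gm (completeBipartiteGraph (Fin m) (Fin n)) Finset.univ) {Sum.inl i, Sum.inr j} =
        gm (completeBipartiteGraph (Fin m) (Fin n)) (Finset.univ \ {Sum.inl i, Sum.inr j}) ∧
      DeletionSequenceSplit (gm (completeBipartiteGraph (Fin m) (Fin n)) Finset.univ)
        {Sum.inl i, Sum.inr j} d) ∧
    (∀ (α : Type) [Fintype α] [DecidableEq α] [LinearOrder (Finset α)] (G : SimpleGraph α)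
      (a b v : α), a ≠ b → a ≠ v → b ≠ v → (∀ x, x ≠ a → G.Adj a x) → (∀ x, x ≠ b → G.Adj b x) →
      (∀ x, x ≠ v → G.Adj v x) → ∀ d : ℤ,
      link (gm G Finset.univ) {a, b} = gm G (Finset.univ \ {a, b}) ∧
        DeletionSequenceSplit (gm G Finset.univ) {a, b} d) := by
  refine ⟨?_, ?_, ?_, ?_⟩
  · intro α _ _ _ G a b v S T hg d
    exact splitG hg d
  · intro n hn a b hab _ d
    obtain ⟨v, hv⟩ : ∃ v, v ∉ ({a, b} : Finset (Fin n)) := by
      by_contra hcon
      push Not at hcon
      have h1 : (Finset.univ : Finset (Fin n)) ⊆ {a, b} := fun x _ => hcon x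
      have h2 := Finset.card_le_card h1
      rw [Finset.card_univ, Finset.card_pair hab, Fintype.card_fin] at h2
      omega
    simp only [Finset.mem_insert, Finset.mem_singleton, not_or] at hv
    have h := splitG (good_three (G := (⊤ : SimpleGraph (Fin n))) hab (Ne.symm hv.1)
      (Ne.symm hv.2) (fun x hx => Ne.symm hx) (fun x hx => Ne.symm hx) (fun x hx => Ne.symm hx)) d
    rw [gm_top, gm_top] at h
    exact h
  · intro m n hmn i j _ d
    by_cases hn : 2 ≤ n
    · obtain ⟨j', hj'⟩ : ∃ j' : Fin n, j ≠ j' := by
        have : Nontrivial (Fin n) := Fin.nontrivial_iff_two_le.2 hn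
        obtain ⟨j', hj'⟩ := exists_ne j
        exact ⟨j', hj'.symm⟩
      exact splitG (good_right i hj') d
    · obtain ⟨i', hi'⟩ : ∃ i' : Fin m, i ≠ i' := by
        have : Nontrivial (Fin m) := Fin.nontrivial_iff_two_le.2 (by omega)
        obtain ⟨i', hi'⟩ := exists_ne i
        exact ⟨i', hi'.symm⟩
      have h := splitG (good_left j hi') d
      rw [Finset.pair_comm (Sum.inr j) (Sum.inl i)] at h
      exact h
  · intro α _ _ _ G a b v hab hav hbv ha hb hv d
    exact splitG (good_three hab hav hbv ha hb hv) d

end Pool.Agent.Results.MP_728c4a_co.GraphMatchings
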